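import Pool.Agent.H70.RZT.S
import Pool.Agent.H88.T1.ZUDA

/-!
# RZT, row UDAN: smooth points and unramified extensions
-/

set_option autoImplicit false

namespace Pool.RZT

open Polynomial NumberField IsDedekindDomain Pool.HYP Pool.TOW Pool.AVS Pool.T1 Pool.NF
  Pool.T1.Zuda88

/-- **UDAN**. -/
theorem udan : UDANStmt := by
  intro K _ _ P ϖ L _ O' ι h f hf
  refine ⟨f.map (phi h), hf.map _, hf.natDegree_map _, oL_map h f, ?_⟩
  intro ϖ' hϖ γ _ hi hs
  have hfin : Finite (𝓞 K ⧸ P.asIdeal) := Ideal.finiteQuotientOfFreeOfNeBot P.asIdeal P.ne_bot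
  exact sing hfin h hϖ f γ hi hs

end Pool.RZT
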